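import Pool.Agent.W_42fc02_h90.BMain

/-!
# Which torsion subgroups of Br(k(x,y)) are abelian relative Brauer groups

For a field F and n > 0, `W42.AbRel F n` says that the n-torsion of Br(F) is an abelian relative
Brauer group (word for word the condition on F and n in the frozen statement). k is a finite field,
q = |k|, F = k(x,y); v_l(m) is the exponent of the prime l in m.

Theorem. Let n divide q - 1 and suppose that for every prime l one of the following holds:
v_l(n) is even, or v_l(n) = v_l(q-1), or 2 v_l(n) <= v_l(q-1) (so all cube-free n are covered). Then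
the n-torsion of Br(F) is an abelian relative Brauer group if and only if every v_l(n) is even or
equal to v_l(q-1). In particular, if n^2 divides q - 1, it is one if and only if n is a perfect square.
-/

namespace Pool.Agent.Results.MP_42fc02_al.RootsOfUnity

theorem result (k : Type) [Field k] [Finite k] :
    (∀ n : ℕ, n ∣ Nat.card k - 1 →
      (∀ l : ℕ, l.Prime → Even (n.factorization l) ∨
        n.factorization l = (Nat.card k - 1).factorization l ∨
        2 * n.factorization l ≤ (Nat.card k - 1).factorization l) →
      (W42.AbRel (RatFunc (RatFunc k)) n ↔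
        ∀ l : ℕ, l.Prime → Even (n.factorization l) ∨
          n.factorization l = (Nat.card k - 1).factorization l)) ∧
    (∀ n : ℕ, n ^ 2 ∣ Nat.card k - 1 → (W42.AbRel (RatFunc (RatFunc k)) n ↔ IsSquare n)) := by
  refine ⟨fun n hn hc => ⟨fun h l hl => ?_, fun h => W42.pos_abRel k n hn h⟩,
    fun n hn => W42.square_iff k n hn⟩
  have hq : Nat.card k - 1 ≠ 0 := by
    have := Finite.one_lt_card (α := k)
    omega
  have hn0 : 0 < n := Nat.pos_of_dvd_of_pos hn (Nat.pos_of_ne_zero hq)
  by_contra hcon
  push Not at hcon
  rcases hc l hl with h1 | h1 | h1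
  · exact hcon.1 h1
  · exact hcon.2 h1
  · refine W42.neg_abRel k n l hn0 hl (Nat.not_even_iff_odd.1 hcon.1) ?_ h
    rw [← pow_add, ← two_mul]
    exact (hl.pow_dvd_iff_le_factorization hq).2 h1

end Pool.Agent.Results.MP_42fc02_al.RootsOfUnity
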