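import Pool.Agent.W_42fc02_h90.Final

/-!
# No single exponent characterises global fields

For a field F and n > 0, `W42.AbRel F n` says that the n-torsion of Br(F) is an abelian relative
Brauer group (this is word for word the condition on F and n in the frozen statement), and
`W42.IsGlob F` is the condition in the frozen statement which says that F (infinite and finitely
generated) is a global field.

Theorem. Let k be a finite field with q elements and n a divisor of q - 1 with gcd(n, (q-1)/n) = 1.
Then the n-torsion of Br(k(x,y)) is an abelian relative Brauer group, although k(x,y) is infinite,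
finitely generated and not global. For every n > 0 there are (prime) q with these two properties.
-/

namespace Pool.Agent.Results.MP_42fc02_al.SingleExponent

theorem result (n : ℕ) (hn : 0 < n) :
    (∃ q : ℕ, q.Prime ∧ n ∣ q - 1 ∧ Nat.Coprime n ((q - 1) / n)) ∧
    ∀ (k : Type) [Field k] [Finite k], n ∣ Nat.card k - 1 →
      Nat.Coprime n ((Nat.card k - 1) / n) →
      Infinite (RatFunc (RatFunc k)) ∧
      (∃ s : Finset (RatFunc (RatFunc k)),
        Subfield.closure (s : Set (RatFunc (RatFunc k))) = ⊤) ∧
      ¬ W42.IsGlob (RatFunc (RatFunc k)) ∧
      W42.AbRel (RatFunc (RatFunc k)) n :=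
  ⟨W42.exists_prime n hn, fun k _ _ h1 h2 =>
    ⟨W42.glob_infinite_k k, W42.glob_fg_k k, W42.not_glob_k k, W42.final_k k n h1 h2⟩⟩

end Pool.Agent.Results.MP_42fc02_al.SingleExponent
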